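import Pool.Agent.AEP.Defs
import Pool.Agent.TNM.Hul

/-!
# From the hulls to a measurable colouring

Plan. Take `A i = {x | x ∈ Hu κ i ∧ (∀ j, j < i → x ∉ Hu κ j) ∧ Dens1 (Hu κ i) x}`. Measurable
(`measurable_Hu`, `measurable_dens1`), disjoint (`lt_trichotomy`). Cover: every `x` is in
`Hu κ (κ x)` (`mem_Hu`); take the least `i` with `x ∈ Hu κ i` (as `ao_cover` in
`Pool.Agent.H99N.AvoidOf`); almost every point of `Hu κ i` is a density point
(`Besicovitch.ae_tendsto_measure_inter_div`, `tendsto_rad`, as at the end of that file). Avoidance: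
`x, y ∈ A i` and `x - y ∈ Cp p`: `x = y + (x - y)`, contradiction with `h i (x - y) y`.
-/

open Set MeasureTheory Filter Topology Metric
open Pool.Agent.Helper2.LM Pool.Agent.TNM

namespace Pool.Agent.AEP

private def av (κ : ℝ × ℝ → Fin 4) (i : Fin 4) : Set (ℝ × ℝ) :=
  {x | x ∈ Hu κ i ∧ ∀ j, j < i → x ∉ Hu κ j}

private theorem av_meas (κ : ℝ × ℝ → Fin 4) (i : Fin 4) : MeasurableSet (av κ i) := by
  have e : av κ i = Hu κ i ∩ ⋂ j, ⋂ (_ : j < i), (Hu κ j)ᶜ := by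
    ext x
    simp only [av, mem_inter_iff, mem_iInter, mem_compl_iff]
    rfl
  rw [e]
  exact (measurable_Hu κ i).inter (MeasurableSet.iInter fun j => MeasurableSet.iInter fun _ =>
    (measurable_Hu κ j).compl)

private theorem av_disj (κ : ℝ × ℝ → Fin 4) {i j : Fin 4} (hij : i ≠ j) :
    Disjoint (av κ i) (av κ j) := by
  rw [Set.disjoint_left]
  rintro x ⟨h1, h2⟩ ⟨h3, h4⟩
  rcases lt_or_gt_of_ne hij with h | h
  · exact h4 i h h1
  · exact h2 j h h3

private theorem av_cover (κ : ℝ × ℝ → Fin 4) (x : ℝ × ℝ) : ∃ i, x ∈ av κ i := by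
  classical
  have hne : (Finset.univ.filter fun i => x ∈ Hu κ i).Nonempty :=
    ⟨κ x, Finset.mem_filter.2 ⟨Finset.mem_univ _, mem_Hu κ x⟩⟩
  refine ⟨(Finset.univ.filter fun i => x ∈ Hu κ i).min' hne, ?_, ?_⟩
  · exact (Finset.mem_filter.1 (Finset.min'_mem _ hne)).2
  · intro j hj hpos
    have h1 : j ∈ (Finset.univ.filter fun i => x ∈ Hu κ i) :=
      Finset.mem_filter.2 ⟨Finset.mem_univ _, hpos⟩
    exact absurd hj (not_lt.2 (Finset.min'_le _ j h1))

theorem avoid_of_hulls {κ : ℝ × ℝ → Fin 4} {D : Set (ℝ × ℝ)}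
    (h : ∀ i, ∀ v ∈ D, NoPair (Hu κ i) v) : ∃ A, Avoid D A := by
  refine ⟨fun i => av κ i ∩ {x | Dens1 (Hu κ i) x}, ?_, ?_, ?_, ?_⟩
  · intro i
    exact (av_meas κ i).inter (measurable_dens1 (measurable_Hu κ i))
  · intro i j hij
    exact (av_disj κ hij).mono inter_subset_left inter_subset_left
  · have h1 : ∀ i, ∀ᵐ x : ℝ × ℝ, x ∈ Hu κ i → Dens1 (Hu κ i) x := by
      intro i
      have h2 := Besicovitch.ae_tendsto_measure_inter_div (volume : Measure (ℝ × ℝ)) (Hu κ i)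
      rw [ae_restrict_iff' (measurable_Hu κ i)] at h2
      filter_upwards [h2] with x hx hxA
      exact (hx hxA).comp tendsto_rad
    have h3 : ∀ᵐ x : ℝ × ℝ, ∀ i, x ∈ Hu κ i → Dens1 (Hu κ i) x := by
      rw [ae_all_iff]
      exact h1
    filter_upwards [h3] with x hx
    obtain ⟨i, hi⟩ := av_cover κ x
    exact ⟨i, hi, hx i hi.1⟩
  · rintro i x ⟨-, hx⟩ y ⟨-, hy⟩ hxy
    refine h i (x - y) hxy y hy ?_
    have e : y + (x - y) = x := by abel
    rw [e]
    exact hx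

end Pool.Agent.AEP
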