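import Pool.Agent.AEP.Defs

/-!
# The union of the circles with exponents in a compact set is closed

Plan. `DK K = Prod.snd '' {z : ℝ × (ℝ × ℝ) | z.1 ∈ K ∧ |z.2.1| ^ z.1 + |z.2.2| ^ z.1 = 1}`.
With `K` compact the projection along the compact factor is closed: use
`IsClosedMap` of `Prod.snd : K × (ℝ × ℝ) → ℝ × ℝ` (`isClosedMap_snd_of_compactSpace`) with the
subtype `K` (`isCompact_iff_compactSpace`), and that
`{z : K × (ℝ × ℝ) | |z.2.1| ^ (z.1 : ℝ) + |z.2.2| ^ (z.1 : ℝ) = 1}` is closed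
(`isClosed_eq`, `Continuous.rpow` with the alternative `0 < exponent`: `Continuous.rpow hf hg h`
needs `∀ x, f x ≠ 0 ∨ 0 < g x`). The second claim follows.
-/

open Set MeasureTheory Filter Topology Metric
open Pool.Agent.Helper2.LM

namespace Pool.Agent.AEP

theorem isClosed_DK {K : Set ℝ} (hK : IsCompact K) (h1 : K ⊆ Ioi 1) : IsClosed (DK K) := by
  haveI : CompactSpace K := isCompact_iff_compactSpace.1 hK
  have hpos : ∀ z : K × (ℝ × ℝ), (0 : ℝ) < (z.1 : ℝ) := fun z =>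
    lt_trans one_pos (h1 z.1.2)
  have hc : Continuous fun z : K × (ℝ × ℝ) => ((z.1 : K) : ℝ) :=
    continuous_subtype_val.comp continuous_fst
  have hcl : IsClosed {z : K × (ℝ × ℝ) | |z.2.1| ^ (z.1 : ℝ) + |z.2.2| ^ (z.1 : ℝ) = 1} := by
    refine isClosed_eq (Continuous.add ?_ ?_) continuous_const
    · exact Continuous.rpow (by fun_prop) hc (fun z => Or.inr (hpos z))
    · exact Continuous.rpow (by fun_prop) hc (fun z => Or.inr (hpos z))
  have himg := isClosedMap_snd_of_compactSpace (X := K) (Y := ℝ × ℝ) _ hcl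
  have e : DK K = Prod.snd '' {z : K × (ℝ × ℝ) |
      |z.2.1| ^ (z.1 : ℝ) + |z.2.2| ^ (z.1 : ℝ) = 1} := by
    ext v
    constructor
    · rintro ⟨p, hp, hv⟩
      exact ⟨(⟨p, hp⟩, v), hv, rfl⟩
    · rintro ⟨⟨p, w⟩, hw, rfl⟩
      exact ⟨p, p.2, hw⟩
  rw [e]
  exact himg

end Pool.Agent.AEP
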