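import Pool.Agent.AEP.Defs

/-!
# The axis directions

`noPair_closure`. Suppose `v ∈ closure S`, `Dens1 H x`, `Dens1 H (x + v)`. Let `r = rad n`, `n`
large, `V = volume (closedBall 0 r)`; `Hᶜ` has measure at most `V / 100` in `closedBall x r` and in
`closedBall (x + v) r` (as `hcomp` in the proof of `ao_core` in `Pool.Agent.H99N.AvoidOf`). Take
`s ∈ S` with `dist v s < r / 2` (`Metric.mem_closure_iff`). For `y ∈ closedBall x (r / 2)`
(`r / 2 = rad (n + 1)`, volume `V / 4` by `m2_vol_rad_succ`) we have `y ∈ closedBall x r` and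
`y + s ∈ closedBall (x + v) r`. Almost every point of `H` is in `{z | Dens1 H z}` (Lebesgue density,
as in `avoid_of_frac` in `Pool.Agent.H99N.AvoidOf`), so `closedBall x (r / 2)` is covered by the four
sets `Hᶜ ∩ closedBall x r`, `{y | y + s ∈ Hᶜ ∩ closedBall (x + v) r}`, the null set of `y ∈ H`
with `¬ Dens1 H y`, its translate by `-s`, and `{y | Dens1 H y ∧ Dens1 H (y + s)} = ∅`: the measure
is at most `V / 50 < V / 4`, a contradiction.

`noPair_axis`: the points of `Cp p` with both coordinates different from zero are dense in `Cp p`: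
for `v = (±1, 0)` take `(± (1 - t ^ p) ^ (1 / p), t)`, `t → 0+`, and for `v = (0, ±1)` symmetrically
(`|v.1| ^ p = 1` and `0 < p` give `|v.1| = 1`).
-/

open Set MeasureTheory Filter Topology Metric
open Pool.Agent.Helper2.LM

namespace Pool.Agent.AEP

theorem noPair_closure {H : Set (ℝ × ℝ)} (mH : MeasurableSet H) {S : Set (ℝ × ℝ)}
    (h : ∀ s ∈ S, NoPair H s) {v : ℝ × ℝ} (hv : v ∈ closure S) : NoPair H v := by
  intro x hx hxv
  have h99 : (99 / 100 : ENNReal) < 1 := by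
    rw [ENNReal.div_lt_iff] <;> norm_num
  obtain ⟨n, hn1, hn2⟩ := ((hx.eventually_const_lt h99).and (hxv.eventually_const_lt h99)).exists
  obtain ⟨r, hr⟩ : ∃ r, r = rad n := ⟨_, rfl⟩
  have hrpos : 0 < r := by
    rw [hr]
    exact rad_pos n
  have hr2 : rad (n + 1) = r / 2 := by
    rw [hr]
    unfold rad
    rw [pow_succ]
    ring
  have hcomp : ∀ w : ℝ × ℝ, (99 / 100 : ENNReal) < dens H n w →
      volume (Hᶜ ∩ closedBall w r) ≤ 1 / 100 * volume (closedBall (0 : ℝ × ℝ) r) := by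
    intro w hw
    rw [hr]
    have h1 := dens_add_le mH.compl (disjoint_compl_right) n w (B := H)
    have h2 : dens Hᶜ n w ≤ 1 / 100 := by
      have h3 : (99 / 100 : ENNReal) + dens Hᶜ n w ≤ 99 / 100 + 1 / 100 := by
        have e : (99 / 100 : ENNReal) + 1 / 100 = 1 := by
          rw [← ENNReal.add_div]
          norm_num
          exact ENNReal.div_self (by norm_num) (by norm_num)
        rw [e]
        exact (add_le_add_left hw.le _).trans h1
      exact (ENNReal.add_le_add_iff_left (ne_top_of_lt h99)).1 h3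
    unfold dens at h2
    rw [m2_vol_rad n w] at h2
    rw [ENNReal.div_le_iff (vol_ball_pos n 0).ne' (vol_ball_lt n 0).ne] at h2
    exact h2
  obtain ⟨s, hs, hvs⟩ := Metric.mem_closure_iff.1 hv (r / 2) (by linarith)
  have hN : volume {z | z ∈ H ∧ ¬ Dens1 H z} = 0 := by
    have h2 := Besicovitch.ae_tendsto_measure_inter_div (volume : Measure (ℝ × ℝ)) H
    rw [ae_restrict_iff' mH] at h2
    rw [measure_eq_zero_iff_ae_notMem]
    filter_upwards [h2] with z hz hzN
    exact hzN.2 ((hz hzN.1).comp tendsto_rad)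
  have hsub : closedBall x (rad (n + 1)) ⊆ ({z | z ∈ H ∧ ¬ Dens1 H z} ∪
      (fun z => z + s) ⁻¹' {z | z ∈ H ∧ ¬ Dens1 H z}) ∪
      (Hᶜ ∩ closedBall x r) ∪ ((fun z => z + s) ⁻¹' (Hᶜ ∩ closedBall (x + v) r)) := by
    intro z hz
    rw [hr2] at hz
    have hz2 : z ∈ closedBall x r := closedBall_subset_closedBall (by linarith) hz
    have hz3 : z + s ∈ closedBall (x + v) r := by
      rw [mem_closedBall] at hz ⊢
      calc dist (z + s) (x + v) ≤ dist z x + dist s v := dist_add_add_le _ _ _ _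
        _ ≤ r / 2 + r / 2 := add_le_add hz (by rw [dist_comm]; exact hvs.le)
        _ = r := by ring
    by_cases hb1 : z ∈ H
    · by_cases hb2 : z + s ∈ H
      · by_cases hd1 : Dens1 H z
        · refine Or.inl (Or.inl (Or.inr ⟨hb2, h s hs z hd1⟩))
        · exact Or.inl (Or.inl (Or.inl ⟨hb1, hd1⟩))
      · exact Or.inr ⟨hb2, hz3⟩
    · exact Or.inl (Or.inr ⟨hb1, hz2⟩)
  have hV : volume (closedBall (0 : ℝ × ℝ) (rad (n + 1))) ≤
      2 / 100 * (4 * volume (closedBall (0 : ℝ × ℝ) (rad (n + 1)))) := by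
    calc volume (closedBall (0 : ℝ × ℝ) (rad (n + 1))) = volume (closedBall x (rad (n + 1))) :=
          (m2_vol_rad (n + 1) x).symm
      _ ≤ volume {z : ℝ × ℝ | z ∈ H ∧ ¬ Dens1 H z} + volume ((fun z => z + s) ⁻¹' {z | z ∈ H ∧ ¬ Dens1 H z}) +
          volume (Hᶜ ∩ closedBall x r) +
          volume ((fun z => z + s) ⁻¹' (Hᶜ ∩ closedBall (x + v) r)) :=
          (measure_mono hsub).trans ((measure_union_le _ _).trans
            (add_le_add_left ((measure_union_le _ _).trans (add_le_add_left (measure_union_le _ _) _)) _))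
      _ = volume (Hᶜ ∩ closedBall x r) + volume (Hᶜ ∩ closedBall (x + v) r) := by
          rw [measure_preimage_add_right, measure_preimage_add_right, hN, zero_add, zero_add]
      _ ≤ 1 / 100 * volume (closedBall (0 : ℝ × ℝ) r) +
          1 / 100 * volume (closedBall (0 : ℝ × ℝ) r) := add_le_add (hcomp x hn1) (hcomp (x + v) hn2)
      _ = 2 / 100 * (4 * volume (closedBall (0 : ℝ × ℝ) (rad (n + 1)))) := by
          rw [← add_mul, ← ENNReal.add_div, hr, m2_vol_rad_succ n]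
          norm_num
  have hVpos := vol_ball_pos (n + 1) (0 : ℝ × ℝ)
  have hVlt := vol_ball_lt (n + 1) (0 : ℝ × ℝ)
  obtain ⟨V, hVdef⟩ : ∃ V, V = volume (closedBall (0 : ℝ × ℝ) (rad (n + 1))) := ⟨_, rfl⟩
  rw [← hVdef] at hV hVpos hVlt
  have h1 : V.toReal ≤ (2 / 100 * (4 * V)).toReal := by
    apply ENNReal.toReal_mono _ hV
    exact ENNReal.mul_ne_top (ENNReal.div_ne_top (by norm_num) (by norm_num))
      (ENNReal.mul_ne_top (by norm_num) hVlt.ne)
  have h2 : (2 / 100 * (4 * V)).toReal = 2 / 100 * (4 * V.toReal) := by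
    simp [ENNReal.toReal_mul, ENNReal.toReal_div]
  have h3 : 0 < V.toReal := ENNReal.toReal_pos hVpos.ne' hVlt.ne
  rw [h2] at h1
  linarith

private theorem clo_aux {p : ℝ} (hp : 1 < p) {v : ℝ × ℝ} (hv : v ∈ Cp p) (h0 : v.1 = 0) :
    v ∈ closure {u : ℝ × ℝ | u ∈ Cp p ∧ u.1 ≠ 0 ∧ u.2 ≠ 0} := by
  have hp0 : 0 < p := by linarith
  have h1 : |v.2| = 1 := by
    have h2 : |v.1| ^ p + |v.2| ^ p = 1 := hv
    rw [h0, abs_zero, Real.zero_rpow hp0.ne', zero_add] at h2
    have h3 : (|v.2| ^ p) ^ p⁻¹ = |v.2| := Real.rpow_rpow_inv (abs_nonneg _) hp0.ne'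
    rw [h2, Real.one_rpow] at h3
    exact h3.symm
  have hc : ContinuousAt (fun t : ℝ => ((t, v.2 * (1 - t ^ p) ^ p⁻¹) : ℝ × ℝ)) 0 := by
    have hc1 : ContinuousAt (fun t : ℝ => 1 - t ^ p) 0 :=
      continuousAt_const.sub (Real.continuousAt_rpow_const 0 p (Or.inr hp0.le))
    have hc2 : ContinuousAt (fun t : ℝ => (1 - t ^ p) ^ p⁻¹) 0 := by
      refine hc1.rpow_const (Or.inl ?_)
      rw [Real.zero_rpow hp0.ne']
      norm_num
    exact continuousAt_id.prodMk (continuousAt_const.mul hc2)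
  have hlim : Tendsto (fun t : ℝ => ((t, v.2 * (1 - t ^ p) ^ p⁻¹) : ℝ × ℝ)) (𝓝[>] 0) (𝓝 v) := by
    have h2 : ((0 : ℝ), v.2 * (1 - (0 : ℝ) ^ p) ^ p⁻¹) = v := by
      rw [Real.zero_rpow hp0.ne', sub_zero, Real.one_rpow, mul_one, ← h0]
    have h3 := hc.tendsto
    rw [h2] at h3
    exact h3.mono_left nhdsWithin_le_nhds
  refine mem_closure_of_tendsto hlim ?_
  have h2 : ∀ᶠ t : ℝ in 𝓝[>] 0, t < 1 := nhdsWithin_le_nhds (Iio_mem_nhds (by norm_num))
  filter_upwards [h2, self_mem_nhdsWithin] with t ht1 ht0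
  have ht0' : 0 < t := ht0
  have h3 : t ^ p < 1 := Real.rpow_lt_one ht0'.le ht1 hp0
  have h4 : 0 < 1 - t ^ p := by linarith
  have h5 : 0 < (1 - t ^ p) ^ p⁻¹ := Real.rpow_pos_of_pos h4 _
  have h6 : v.2 ≠ 0 := by
    intro h7
    rw [h7, abs_zero] at h1
    norm_num at h1
  refine ⟨?_, ht0'.ne', mul_ne_zero h6 h5.ne'⟩
  show |t| ^ p + |v.2 * (1 - t ^ p) ^ p⁻¹| ^ p = 1
  rw [abs_mul, h1, one_mul, abs_of_pos ht0', abs_of_pos h5, Real.rpow_inv_rpow h4.le hp0.ne']
  ring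

theorem mem_closure_Cp {p : ℝ} (hp : 1 < p) {v : ℝ × ℝ} (hv : v ∈ Cp p) :
    v ∈ closure {u : ℝ × ℝ | u ∈ Cp p ∧ u.1 ≠ 0 ∧ u.2 ≠ 0} := by
  by_cases h1 : v.1 = 0
  · exact clo_aux hp hv h1
  · by_cases h2 : v.2 = 0
    · have hsw : Prod.swap v ∈ Cp p := by
        show |v.2| ^ p + |v.1| ^ p = 1
        rw [add_comm]
        exact hv
      have h3 := clo_aux hp hsw h2
      have h4 := map_mem_closure continuous_swap h3
        (t := {u : ℝ × ℝ | u ∈ Cp p ∧ u.1 ≠ 0 ∧ u.2 ≠ 0}) (fun u hu => by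
          refine ⟨?_, hu.2.2, hu.2.1⟩
          show |u.2| ^ p + |u.1| ^ p = 1
          rw [add_comm]
          exact hu.1)
      rwa [Prod.swap_swap] at h4
    · exact subset_closure ⟨hv, h1, h2⟩

end Pool.Agent.AEP
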