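import Pool.Agent.AEP.Defs

/-!
# Density points and pairs

Plan. Suppose `Dens1 H x` and `Dens1 H (x + u)`. Let `r = rad n`, `n` large,
`V = volume (closedBall 0 r) = ofReal (4 * r ^ 2)` (squares). `volume (Hᶜ ∩ closedBall x r)` and
`volume (Hᶜ ∩ closedBall (x + u) r)` are at most `V / 100` (as `hcomp` in the proof of `ao_core` in
`Pool.Agent.H99N.AvoidOf`: `dens_add_le`, `m2_vol_rad`, `vol_ball_pos`, `vol_ball_lt`), and
`volume (closedBall u (2 * r) \ D) ≤ V / 100` by `Den2 D u`. The product set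
`closedBall (x + u) r ×ˢ closedBall x r` has measure `V * V` and is contained in the union of
`Z = {q | q.1 ∈ H ∧ q.2 ∈ H ∧ q.1 - q.2 ∈ D}` (null), of
`(Hᶜ ∩ closedBall (x + u) r) ×ˢ closedBall x r`, `closedBall (x + u) r ×ˢ (Hᶜ ∩ closedBall x r)`
(measure at most `V * V / 100` each) and of
`{q | q.2 ∈ closedBall x r ∧ q.1 - q.2 ∈ closedBall u (2 * r) \ D}`, whose measure is
`≤ V * volume (closedBall u (2 * r) \ D) ≤ V * V / 100` (Fubini, `Measure.prod_apply_symm`,
translation invariance `measure_preimage_sub_right` or similar). Since `0 < V < ⊤` this is a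
contradiction. (`Measure.volume_eq_prod`, `Measure.prod_prod`.)
-/

open Set MeasureTheory Filter Topology Metric
open Pool.Agent.Helper2.LM

namespace Pool.Agent.AEP

private theorem cn_vol {r : ℝ} (hr : 0 < r) :
    volume (closedBall (0 : ℝ × ℝ) r) = ENNReal.ofReal (4 * r ^ 2) := by
  have h1 : closedBall (0 : ℝ × ℝ) r = closedBall (0 : ℝ) r ×ˢ closedBall (0 : ℝ) r :=
    (closedBall_prod_same (0 : ℝ) (0 : ℝ) r).symm
  rw [h1, Measure.volume_eq_prod, Measure.prod_prod, Real.volume_closedBall,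
    ← ENNReal.ofReal_mul (by linarith)]
  congr 1
  ring

private theorem cn_comp {H : Set (ℝ × ℝ)} (mH : MeasurableSet H) {n : ℕ} {w : ℝ × ℝ}
    (hw : (99 / 100 : ENNReal) < dens H n w) :
    volume (Hᶜ ∩ closedBall w (rad n)) ≤ 1 / 100 * volume (closedBall (0 : ℝ × ℝ) (rad n)) := by
  have h1 := dens_add_le mH.compl (disjoint_compl_right) n w (B := H)
  have h2 : dens Hᶜ n w ≤ 1 / 100 := by
    have h3 : (99 / 100 : ENNReal) + dens Hᶜ n w ≤ 99 / 100 + 1 / 100 := by
      have e : (99 / 100 : ENNReal) + 1 / 100 = 1 := by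
        rw [← ENNReal.add_div]
        norm_num
        exact ENNReal.div_self (by norm_num) (by norm_num)
      rw [e]
      exact (add_le_add_left hw.le _).trans h1
    exact (ENNReal.add_le_add_iff_left (by finiteness)).1 h3
  unfold dens at h2
  rw [m2_vol_rad n w] at h2
  rw [ENNReal.div_le_iff (vol_ball_pos n 0).ne' (vol_ball_lt n 0).ne] at h2
  exact h2

private theorem cn_fub {A C : Set (ℝ × ℝ)} (mA : MeasurableSet A) (mC : MeasurableSet C) :
    volume {q : (ℝ × ℝ) × (ℝ × ℝ) | q.2 ∈ A ∧ q.1 - q.2 ∈ C} = volume C * volume A := by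
  have mS : MeasurableSet {q : (ℝ × ℝ) × (ℝ × ℝ) | q.2 ∈ A ∧ q.1 - q.2 ∈ C} :=
    (measurable_snd mA).inter ((measurable_fst.sub measurable_snd) mC)
  rw [Measure.volume_eq_prod, Measure.prod_apply_symm mS]
  have h1 : ∀ y : ℝ × ℝ, volume ((fun x => (x, y)) ⁻¹'
      {q : (ℝ × ℝ) × (ℝ × ℝ) | q.2 ∈ A ∧ q.1 - q.2 ∈ C}) = A.indicator (fun _ => volume C) y := by
    intro y
    by_cases hy : y ∈ A
    · rw [indicator_of_mem hy]
      have h2 : ((fun x => (x, y)) ⁻¹' {q : (ℝ × ℝ) × (ℝ × ℝ) | q.2 ∈ A ∧ q.1 - q.2 ∈ C}) =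
          (fun x => x + (-y)) ⁻¹' C := by
        ext x
        constructor
        · rintro ⟨-, h⟩
          show x + (-y) ∈ C
          rw [← sub_eq_add_neg]
          exact h
        · intro h
          refine ⟨hy, ?_⟩
          show x - y ∈ C
          rw [sub_eq_add_neg]
          exact h
      rw [h2, measure_preimage_add_right]
    · rw [indicator_of_notMem hy]
      have h2 : ((fun x => (x, y)) ⁻¹' {q : (ℝ × ℝ) × (ℝ × ℝ) | q.2 ∈ A ∧ q.1 - q.2 ∈ C}) =
          ∅ := by
        ext x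
        constructor
        · rintro ⟨h, -⟩
          exact absurd h hy
        · intro h
          exact absurd h (notMem_empty x)
      rw [h2, measure_empty]
  rw [lintegral_congr h1, lintegral_indicator_const mA]

private theorem cn_near {x u a b : ℝ × ℝ} {r : ℝ} (ha : a ∈ closedBall (x + u) r)
    (hb : b ∈ closedBall x r) : a - b ∈ closedBall u (2 * r) := by
  rw [mem_closedBall, dist_eq_norm] at ha hb ⊢
  have h1 : a - b - u = (a - (x + u)) - (b - x) := by abel
  rw [h1]
  exact (norm_sub_le _ _).trans (by linarith)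

theorem noPair_of {H D : Set (ℝ × ℝ)} (mH : MeasurableSet H) (mD : MeasurableSet D)
    (h0 : volume {q : (ℝ × ℝ) × (ℝ × ℝ) | q.1 ∈ H ∧ q.2 ∈ H ∧ q.1 - q.2 ∈ D} = 0)
    {u : ℝ × ℝ} (hu : Den2 D u) : NoPair H u := by
  intro x hx hy
  obtain ⟨δ, hδ, hd⟩ := hu (1 / 100) (by norm_num)
  have h99 : (99 / 100 : ENNReal) < 1 := by
    rw [ENNReal.div_lt_iff] <;> norm_num
  have e1 : ∀ᶠ n in atTop, rad n < δ / 2 :=
    (tendsto_rad.mono_right nhdsWithin_le_nhds).eventually_lt_const (by linarith)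
  obtain ⟨n, ⟨hn1, hn2⟩, hn3⟩ :=
    (((hx.eventually_const_lt h99).and (hy.eventually_const_lt h99)).and e1).exists
  have hrpos : 0 < rad n := rad_pos n
  obtain ⟨V, hV⟩ : ∃ V, V = volume (closedBall (0 : ℝ × ℝ) (rad n)) := ⟨_, rfl⟩
  have c1 := cn_comp mH hn1
  have c2 := cn_comp mH hn2
  have c3 : volume (closedBall u (2 * rad n) \ D) ≤ 1 / 100 * V := by
    refine (hd (2 * rad n) (by linarith) (by linarith)).trans (le_of_eq ?_)
    rw [hV, cn_vol hrpos, show (1 : ENNReal) / 100 = ENNReal.ofReal (1 / 100) by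
      rw [ENNReal.ofReal_div_of_pos (by norm_num)]
      norm_num, ← ENNReal.ofReal_mul (by norm_num)]
    congr 1
    ring
  have hV0 : V ≠ 0 := by
    rw [hV]
    exact (vol_ball_pos n 0).ne'
  have hVt : V ≠ ⊤ := by
    rw [hV]
    exact (vol_ball_lt n 0).ne
  have b1 : volume (closedBall x (rad n)) = V := by rw [hV, m2_vol_rad]
  have b2 : volume (closedBall (x + u) (rad n)) = V := by rw [hV, m2_vol_rad]
  rw [← hV] at c1 c2
  have hsub : closedBall (x + u) (rad n) ×ˢ closedBall x (rad n) ⊆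
      ({q : (ℝ × ℝ) × (ℝ × ℝ) | q.1 ∈ H ∧ q.2 ∈ H ∧ q.1 - q.2 ∈ D} ∪
        (Hᶜ ∩ closedBall (x + u) (rad n)) ×ˢ closedBall x (rad n)) ∪
      (closedBall (x + u) (rad n) ×ˢ (Hᶜ ∩ closedBall x (rad n)) ∪
        {q : (ℝ × ℝ) × (ℝ × ℝ) | q.2 ∈ closedBall x (rad n) ∧
          q.1 - q.2 ∈ closedBall u (2 * rad n) \ D}) := by
    rintro ⟨a, b⟩ ⟨ha, hb⟩
    by_cases h1 : a ∈ H
    · by_cases h2 : b ∈ H
      · by_cases h3 : a - b ∈ D
        · exact Or.inl (Or.inl ⟨h1, h2, h3⟩)
        · exact Or.inr (Or.inr ⟨hb, cn_near ha hb, h3⟩)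
      · exact Or.inr (Or.inl ⟨ha, h2, hb⟩)
    · exact Or.inl (Or.inr ⟨⟨h1, ha⟩, hb⟩)
  have hle : V * V ≤ (0 + 1 / 100 * V * V) + (V * (1 / 100 * V) + 1 / 100 * V * V) := by
    calc V * V = volume (closedBall (x + u) (rad n) ×ˢ closedBall x (rad n)) := by
          rw [Measure.volume_eq_prod, Measure.prod_prod, b1, b2]
      _ ≤ _ := (measure_mono hsub).trans ((measure_union_le _ _).trans
          (add_le_add (measure_union_le _ _) (measure_union_le _ _)))
      _ ≤ _ := by
          refine add_le_add (add_le_add h0.le ?_) (add_le_add ?_ ?_)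
          · rw [Measure.volume_eq_prod, Measure.prod_prod, b1]
            exact mul_le_mul_left c2 _
          · rw [Measure.volume_eq_prod, Measure.prod_prod, b2]
            exact mul_le_mul_right c1 _
          · rw [cn_fub measurableSet_closedBall (measurableSet_closedBall.diff mD), b1]
            exact mul_le_mul_left c3 _
  have hW0 : 0 < (V * V).toReal :=
    ENNReal.toReal_pos (mul_ne_zero hV0 hV0) (ENNReal.mul_ne_top hVt hVt)
  have hfin : (0 + 1 / 100 * V * V) + (V * (1 / 100 * V) + 1 / 100 * V * V) =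
      3 / 100 * (V * V) := by
    rw [← ENNReal.toReal_eq_toReal_iff' (by finiteness) (by finiteness)]
    rw [ENNReal.toReal_add (by finiteness) (by finiteness),
      ENNReal.toReal_add (by finiteness) (by finiteness),
      ENNReal.toReal_add (by finiteness) (by finiteness)]
    simp only [ENNReal.toReal_mul, ENNReal.toReal_div, ENNReal.toReal_one, ENNReal.toReal_ofNat,
      ENNReal.toReal_zero]
    ring
  rw [hfin] at hle
  have hle2 := ENNReal.toReal_mono (by finiteness) hle
  rw [ENNReal.toReal_mul (a := 3 / 100)] at hle2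
  simp only [ENNReal.toReal_div, ENNReal.toReal_ofNat] at hle2
  linarith

end Pool.Agent.AEP
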