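import Pool.Agent.AEP.Defs

/-!
# Compactness

Plan. `ℝ × ℝ → Fin 4` is a compact space (product topology, `Fin 4` discrete and finite). For a
triple `z = (p, x, y)` with `p ∈ P` and `|x.1 - y.1| ^ p + |x.2 - y.2| ^ p = 1` the set
`U z = {κ | κ x = κ y}` is open (`isOpen_discrete` and continuity of `κ ↦ (κ x, κ y)`). By `h` these
sets cover the space; take a finite subcover (`isCompact_univ.elim_finite_subcover` over the
subtype of the triples), `F` the finite set of the first components and `X` the finite set of the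
`x` and `y`.
-/

open Set MeasureTheory Filter Topology Metric
open Pool.Agent.Helper2.LM

namespace Pool.Agent.AEP

theorem finite_of {P : Set ℝ}
    (h : ∀ κ : ℝ × ℝ → Fin 4, ∃ p ∈ P, ∃ x y : ℝ × ℝ, κ x = κ y ∧
      |x.1 - y.1| ^ p + |x.2 - y.2| ^ p = 1) :
    ∃ (F : Finset ℝ) (X : Finset (ℝ × ℝ)), ↑F ⊆ P ∧ ∀ κ : ℝ × ℝ → Fin 4,
      ∃ p ∈ F, ∃ x ∈ X, ∃ y ∈ X, κ x = κ y ∧ |x.1 - y.1| ^ p + |x.2 - y.2| ^ p = 1 := by
  classical
  have hopen : ∀ z : {z : ℝ × (ℝ × ℝ) × (ℝ × ℝ) // z.1 ∈ P ∧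
      |z.2.1.1 - z.2.2.1| ^ z.1 + |z.2.1.2 - z.2.2.2| ^ z.1 = 1},
      IsOpen {κ : ℝ × ℝ → Fin 4 | κ z.1.2.1 = κ z.1.2.2} := by
    intro z
    have h1 : Continuous fun κ : ℝ × ℝ → Fin 4 => (κ z.1.2.1, κ z.1.2.2) :=
      (continuous_apply _).prodMk (continuous_apply _)
    exact (isOpen_discrete {q : Fin 4 × Fin 4 | q.1 = q.2}).preimage h1
  obtain ⟨t, ht⟩ := (isCompact_univ (X := ℝ × ℝ → Fin 4)).elim_finite_subcover _ hopen (by
    intro κ _
    obtain ⟨p, hp, x, y, hxy, h1⟩ := h κ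
    exact mem_iUnion.2 ⟨⟨(p, x, y), hp, h1⟩, hxy⟩)
  refine ⟨t.image fun z => z.1.1, (t.image fun z => z.1.2.1) ∪ (t.image fun z => z.1.2.2), ?_, ?_⟩
  · intro p hp
    simp only [Finset.coe_image, mem_image, Finset.mem_coe] at hp
    obtain ⟨z, -, rfl⟩ := hp
    exact z.2.1
  · intro κ
    have h1 := ht (mem_univ κ)
    simp only [mem_iUnion] at h1
    obtain ⟨z, hz, hκ⟩ := h1
    refine ⟨z.1.1, Finset.mem_image_of_mem _ hz, z.1.2.1, ?_, z.1.2.2, ?_, hκ, z.2.2⟩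
    · exact Finset.mem_union_left _ (Finset.mem_image_of_mem (fun z => z.1.2.1) hz)
    · exact Finset.mem_union_right _ (Finset.mem_image_of_mem (fun z => z.1.2.2) hz)

end Pool.Agent.AEP
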