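import Pool.Agent.Helper2.LM.M2

/-!
# Almost every exponent: definitions

`Cp p` is the unit circle of the `l_p` plane, `DK K` the union of the circles `Cp p`, `p ∈ K`.
`Den1 K p`: `p` is a density point of the set `K` of real numbers (in a form without limits).
`Den2 D u`: `u` is a density point of the planar set `D` (closed balls of `ℝ × ℝ` are squares).
-/

open Set MeasureTheory Filter Topology Metric
open Pool.Agent.Helper2.LM

namespace Pool.Agent.AEP

/-- the unit circle of the `l_p` norm -/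
def Cp (p : ℝ) : Set (ℝ × ℝ) := {v | |v.1| ^ p + |v.2| ^ p = 1}

/-- the union of the unit circles of the `l_p` norms with `p ∈ K` -/
def DK (K : Set ℝ) : Set (ℝ × ℝ) := {v | ∃ p ∈ K, v ∈ Cp p}

/-- `p` is a density point of `K` -/
def Den1 (K : Set ℝ) (p : ℝ) : Prop :=
  ∀ ε : ℝ, 0 < ε → ∃ δ : ℝ, 0 < δ ∧ ∀ r : ℝ, 0 < r → r < δ →
    volume (Icc (p - r) (p + r) \ K) ≤ ENNReal.ofReal (ε * r)

/-- `u` is a density point of `D` -/
def Den2 (D : Set (ℝ × ℝ)) (u : ℝ × ℝ) : Prop :=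
  ∀ ε : ℝ, 0 < ε → ∃ δ : ℝ, 0 < δ ∧ ∀ r : ℝ, 0 < r → r < δ →
    volume (closedBall u r \ D) ≤ ENNReal.ofReal (ε * r ^ 2)

/-- no point `x` such that `x` and `x + v` are both density points of `H` -/
def NoPair (H : Set (ℝ × ℝ)) (v : ℝ × ℝ) : Prop := ∀ x, Dens1 H x → ¬ Dens1 H (x + v)

end Pool.Agent.AEP
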