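import Pool.Agent.AEP.Ps
import Pool.Agent.AEP.Cl

/-!
# Density points of the union of the circles

Plan. First `u.1, u.2 > 0` (private lemma): take `C`, `r₀` of `slice` with `a = u.1`, `b = u.2`;
for `r < r₀`, `r < u.1`, `r < u.2` the points of `closedBall u r = Icc ×ˢ Icc`
(`closedBall_prod_same`, `Real.closedBall_eq_Icc`) have positive coordinates, so
`|x| ^ q = x ^ q`. `closedBall u r \ DK K` is measurable (`isClosed_DK`), its measure is
`∫⁻ x, volume {y | (x, y) ∈ closedBall u r \ DK K}` (`Measure.volume_eq_prod`,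
`Measure.prod_apply`), the integrand vanishes outside `|x - u.1| ≤ r` and is at most
`ofReal C * volume (Icc (p - C * r) (p + C * r) \ K)` inside, at most
`ofReal C * ofReal (ε' * (C * r))` for small `r` by `Den1 K p`. Total
`2 * r * C * ε' * C * r`; take `ε' = ε / (2 * C ^ 2)`.
General signs: the maps `v ↦ (± v.1, ± v.2)` preserve `volume` and `DK K` (`abs_neg`) and map
`closedBall u r` onto the ball around the image (for example `measurePreserving_neg` and
`MeasurePreserving.prod`, or `Measure.addHaar` invariance under a linear isometry); reduce to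
`u.1, u.2 > 0`.
-/

open Set MeasureTheory Filter Topology Metric
open Pool.Agent.Helper2.LM

namespace Pool.Agent.AEP

private theorem flip1 {K : Set ℝ} (hK : IsCompact K) (h1 : K ⊆ Ioi 1) {u : ℝ × ℝ}
    (h : Den2 (DK K) (-u.1, u.2)) : Den2 (DK K) u := by
  intro ε hε
  obtain ⟨δ, hδ, hr⟩ := h ε hε
  refine ⟨δ, hδ, fun r hr0 hrd => ?_⟩
  have hmp : MeasurePreserving (Prod.map (fun x : ℝ => -x) (fun y : ℝ => y))
      (volume : Measure (ℝ × ℝ)) volume :=
    (Measure.measurePreserving_neg (volume : Measure ℝ)).prod (MeasurePreserving.id volume)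
  have hA : MeasurableSet (closedBall ((-u.1, u.2) : ℝ × ℝ) r \ DK K) :=
    isClosed_closedBall.measurableSet.diff (isClosed_DK hK h1).measurableSet
  have hpre : Prod.map (fun x : ℝ => -x) (fun y : ℝ => y) ⁻¹'
      (closedBall ((-u.1, u.2) : ℝ × ℝ) r \ DK K) = closedBall u r \ DK K := by
    ext v
    rw [mem_preimage, mem_diff, mem_diff, mem_closedBall, mem_closedBall, Prod.dist_eq,
      Prod.dist_eq]
    have e1 : dist (Prod.map (fun x : ℝ => -x) (fun y : ℝ => y) v).1 (-u.1) = dist v.1 u.1 := by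
      show dist (-v.1) (-u.1) = _
      rw [dist_neg_neg]
    have e2 : dist (Prod.map (fun x : ℝ => -x) (fun y : ℝ => y) v).2 u.2 = dist v.2 u.2 := rfl
    have e3 : Prod.map (fun x : ℝ => -x) (fun y : ℝ => y) v ∈ DK K ↔ v ∈ DK K := by
      show (∃ q ∈ K, |(-v.1)| ^ q + |v.2| ^ q = 1) ↔ ∃ q ∈ K, |v.1| ^ q + |v.2| ^ q = 1
      rw [abs_neg]
    rw [e3]
    show (max (dist (Prod.map (fun x : ℝ => -x) (fun y : ℝ => y) v).1 (-u.1))
      (dist (Prod.map (fun x : ℝ => -x) (fun y : ℝ => y) v).2 u.2) ≤ r ∧ _) ↔ _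
    rw [e1, e2]
  rw [← hpre, hmp.measure_preimage hA.nullMeasurableSet]
  exact hr r hr0 hrd

private theorem flip2 {K : Set ℝ} (hK : IsCompact K) (h1 : K ⊆ Ioi 1) {u : ℝ × ℝ}
    (h : Den2 (DK K) (u.1, -u.2)) : Den2 (DK K) u := by
  intro ε hε
  obtain ⟨δ, hδ, hr⟩ := h ε hε
  refine ⟨δ, hδ, fun r hr0 hrd => ?_⟩
  have hmp : MeasurePreserving (Prod.map (fun x : ℝ => x) (fun y : ℝ => -y))
      (volume : Measure (ℝ × ℝ)) volume :=
    (MeasurePreserving.id volume).prod (Measure.measurePreserving_neg (volume : Measure ℝ))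
  have hA : MeasurableSet (closedBall ((u.1, -u.2) : ℝ × ℝ) r \ DK K) :=
    isClosed_closedBall.measurableSet.diff (isClosed_DK hK h1).measurableSet
  have hpre : Prod.map (fun x : ℝ => x) (fun y : ℝ => -y) ⁻¹'
      (closedBall ((u.1, -u.2) : ℝ × ℝ) r \ DK K) = closedBall u r \ DK K := by
    ext v
    rw [mem_preimage, mem_diff, mem_diff, mem_closedBall, mem_closedBall, Prod.dist_eq,
      Prod.dist_eq]
    have e1 : dist (Prod.map (fun x : ℝ => x) (fun y : ℝ => -y) v).1 u.1 = dist v.1 u.1 := rfl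
    have e2 : dist (Prod.map (fun x : ℝ => x) (fun y : ℝ => -y) v).2 (-u.2) = dist v.2 u.2 := by
      show dist (-v.2) (-u.2) = _
      rw [dist_neg_neg]
    have e3 : Prod.map (fun x : ℝ => x) (fun y : ℝ => -y) v ∈ DK K ↔ v ∈ DK K := by
      show (∃ q ∈ K, |v.1| ^ q + |(-v.2)| ^ q = 1) ↔ ∃ q ∈ K, |v.1| ^ q + |v.2| ^ q = 1
      rw [abs_neg]
    rw [e3]
    show (max (dist (Prod.map (fun x : ℝ => x) (fun y : ℝ => -y) v).1 u.1)
      (dist (Prod.map (fun x : ℝ => x) (fun y : ℝ => -y) v).2 (-u.2)) ≤ r ∧ _) ↔ _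
    rw [e1, e2]
  rw [← hpre, hmp.measure_preimage hA.nullMeasurableSet]
  exact hr r hr0 hrd

private theorem pos_case {K : Set ℝ} (hK : IsCompact K) (h1 : K ⊆ Ioi 1) {p : ℝ} (hp : 1 < p)
    (hd : Den1 K p) {u : ℝ × ℝ} (hu : u ∈ Cp p) (hu1 : 0 < u.1) (hu2 : 0 < u.2) :
    Den2 (DK K) u := by
  obtain ⟨a, b⟩ := u
  have ha : 0 < a := hu1
  have hb : 0 < b := hu2
  have hab : a ^ p + b ^ p = 1 := by
    have h2 : |a| ^ p + |b| ^ p = 1 := hu
    rwa [abs_of_pos ha, abs_of_pos hb] at h2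
  obtain ⟨C, hC, r₀, hr₀, hs⟩ := slice hp ha hb hab
  intro ε hε
  have hε' : 0 < ε / (2 * C ^ 2) := by positivity
  obtain ⟨δ', hδ', hden⟩ := hd _ hε'
  refine ⟨min (min r₀ a) (min b (δ' / C)), by positivity, fun r hr hrd => ?_⟩
  rw [lt_min_iff, lt_min_iff, lt_min_iff] at hrd
  obtain ⟨⟨hr1, hr2⟩, hr3, hr4⟩ := hrd
  have hA : MeasurableSet (closedBall ((a, b) : ℝ × ℝ) r \ DK K) :=
    isClosed_closedBall.measurableSet.diff (isClosed_DK hK h1).measurableSet
  have hCr : volume (Icc (p - C * r) (p + C * r) \ K) ≤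
      ENNReal.ofReal (ε / (2 * C ^ 2) * (C * r)) :=
    hden (C * r) (by positivity) (by rw [lt_div_iff₀ hC] at hr4; linarith)
  have hle : ∀ x, volume (Prod.mk x ⁻¹' (closedBall ((a, b) : ℝ × ℝ) r \ DK K)) ≤
      (closedBall a r).indicator
        (fun _ => ENNReal.ofReal C * ENNReal.ofReal (ε / (2 * C ^ 2) * (C * r))) x := by
    intro x
    by_cases hx : x ∈ closedBall a r
    · rw [indicator_of_mem hx]
      have hx' : |x - a| ≤ r := by
        rw [mem_closedBall, Real.dist_eq] at hx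
        exact hx
      refine (measure_mono ?_).trans ((hs K r x hr hr1 hx').trans (by gcongr))
      intro y hy
      obtain ⟨hy1, hy2⟩ := hy
      rw [mem_closedBall, Prod.dist_eq] at hy1
      have hy3 : |y - b| ≤ r := by
        have := (le_max_right _ _).trans hy1
        rwa [Real.dist_eq] at this
      refine ⟨hy3, ?_⟩
      rintro ⟨q, hq, hxy⟩
      apply hy2
      refine ⟨q, hq, ?_⟩
      have hx0 : 0 < x := by
        have := (abs_le.1 hx').1
        linarith
      have hy0 : 0 < y := by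
        have := (abs_le.1 hy3).1
        linarith
      show |x| ^ q + |y| ^ q = 1
      rw [abs_of_pos hx0, abs_of_pos hy0]
      exact hxy
    · rw [indicator_of_notMem hx]
      have hempty : Prod.mk x ⁻¹' (closedBall ((a, b) : ℝ × ℝ) r \ DK K) = ∅ := by
        rw [eq_empty_iff_forall_notMem]
        intro y hy
        apply hx
        have hy1 := hy.1
        rw [mem_closedBall, Prod.dist_eq] at hy1
        exact (le_max_left _ _).trans hy1
      rw [hempty, measure_empty]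
  rw [Measure.volume_eq_prod, Measure.prod_apply hA]
  refine (lintegral_mono hle).trans ?_
  rw [lintegral_indicator_const isClosed_closedBall.measurableSet, Real.volume_closedBall,
    ← ENNReal.ofReal_mul hC.le, ← ENNReal.ofReal_mul (by positivity)]
  apply ENNReal.ofReal_le_ofReal
  apply le_of_eq
  field_simp

theorem den2_DK {K : Set ℝ} (hK : IsCompact K) (h1 : K ⊆ Ioi 1) {p : ℝ} (hp : 1 < p)
    (hd : Den1 K p) {u : ℝ × ℝ} (hu : u ∈ Cp p) (hu1 : u.1 ≠ 0) (hu2 : u.2 ≠ 0) :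
    Den2 (DK K) u := by
  have hstep : ∀ v : ℝ × ℝ, v ∈ Cp p → 0 < v.1 → v.2 ≠ 0 → Den2 (DK K) v := by
    intro v hv hv1 hv2
    rcases lt_or_gt_of_ne hv2 with h | h
    · refine flip2 hK h1 (pos_case hK h1 hp hd ?_ hv1 (neg_pos.2 h))
      show |v.1| ^ p + |(-v.2)| ^ p = 1
      rw [abs_neg]
      exact hv
    · exact pos_case hK h1 hp hd hv hv1 h
  rcases lt_or_gt_of_ne hu1 with h | h
  · refine flip1 hK h1 (hstep _ ?_ (neg_pos.2 h) hu2)
    show |(-u.1)| ^ p + |u.2| ^ p = 1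
    rw [abs_neg]
    exact hu
  · exact hstep u hu h hu2

end Pool.Agent.AEP
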