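import Pool.Agent.AEP.Defs

/-!
# A compact subset with a density point

Inner regularity and the density theorem (Besicovitch).
-/

open Set MeasureTheory Filter Topology Metric
open Pool.Agent.Helper2.LM

namespace Pool.Agent.AEP

private theorem den_of_lim {K : Set ℝ} (hK : MeasurableSet K) {x : ℝ}
    (h : Tendsto (fun r => volume (K ∩ closedBall x r) / volume (closedBall x r)) (𝓝[>] 0) (𝓝 1)) :
    Den1 K x := by
  intro ε hε
  have h1 : (1 : ENNReal) - ENNReal.ofReal (ε / 2) < 1 := by
    apply ENNReal.sub_lt_self ENNReal.one_ne_top one_ne_zero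
    rw [ne_eq, ENNReal.ofReal_eq_zero, not_le]
    linarith
  have h2 := h.eventually_const_lt h1
  rw [Filter.Eventually, mem_nhdsGT_iff_exists_Ioo_subset] at h2
  obtain ⟨δ, hδ, hsub⟩ := h2
  refine ⟨δ, hδ, fun r hr hrδ => ?_⟩
  have h3 : (1 : ENNReal) - ENNReal.ofReal (ε / 2) < volume (K ∩ closedBall x r) / volume (closedBall x r) :=
    hsub ⟨hr, hrδ⟩
  rw [Real.closedBall_eq_Icc] at h3
  have hvol : volume (Icc (x - r) (x + r)) = ENNReal.ofReal (2 * r) := by
    rw [Real.volume_Icc]
    congr 1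
    ring
  have hne : volume (Icc (x - r) (x + r)) ≠ 0 := by
    rw [hvol, ne_eq, ENNReal.ofReal_eq_zero, not_le]
    linarith
  have hnt : volume (Icc (x - r) (x + r)) ≠ ⊤ := by
    rw [hvol]
    exact ENNReal.ofReal_ne_top
  have h4 : ((1 : ENNReal) - ENNReal.ofReal (ε / 2)) * volume (Icc (x - r) (x + r)) ≤
      volume (K ∩ Icc (x - r) (x + r)) := by
    have h5 := mul_le_mul_left h3.le (volume (Icc (x - r) (x + r)))
    rw [ENNReal.div_mul_cancel hne hnt] at h5
    exact h5
  have h6 : volume (Icc (x - r) (x + r)) ≤ volume (K ∩ Icc (x - r) (x + r)) + ENNReal.ofReal (ε * r) := by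
    have h7 : volume (Icc (x - r) (x + r)) =
        (1 : ENNReal) * volume (Icc (x - r) (x + r)) := (one_mul _).symm
    have h8 : ENNReal.ofReal (ε * r) = ENNReal.ofReal (ε / 2) * volume (Icc (x - r) (x + r)) := by
      rw [hvol, ← ENNReal.ofReal_mul (by linarith)]
      congr 1
      ring
    calc volume (Icc (x - r) (x + r)) = (1 : ENNReal) * volume (Icc (x - r) (x + r)) := h7
      _ ≤ ((1 - ENNReal.ofReal (ε / 2)) + ENNReal.ofReal (ε / 2)) * volume (Icc (x - r) (x + r)) :=
          mul_le_mul_left le_tsub_add _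
      _ = (1 - ENNReal.ofReal (ε / 2)) * volume (Icc (x - r) (x + r)) +
            ENNReal.ofReal (ε / 2) * volume (Icc (x - r) (x + r)) := add_mul _ _ _
      _ ≤ volume (K ∩ Icc (x - r) (x + r)) + ENNReal.ofReal (ε * r) := by
          rw [h8]
          exact add_le_add_left h4 _
  have h9 : volume (Icc (x - r) (x + r)) = volume (K ∩ Icc (x - r) (x + r)) +
      volume (Icc (x - r) (x + r) \ K) := by
    rw [inter_comm, measure_inter_add_sdiff _ hK]
  have hft : volume (K ∩ Icc (x - r) (x + r)) ≠ ⊤ :=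
    ne_top_of_le_ne_top hnt (measure_mono inter_subset_right)
  rw [h9] at h6
  exact (ENNReal.add_le_add_iff_left hft).1 h6

theorem exists_den {P : Set ℝ} (hP : NullMeasurableSet P) (h0 : volume P ≠ 0) :
    ∃ K ⊆ P, IsCompact K ∧ ∃ p ∈ K, Den1 K p := by
  obtain ⟨P', hP'P, hP'm, hP'ae⟩ := hP.exists_measurable_subset_ae_eq
  have h1 : volume P' ≠ 0 := by
    rw [measure_congr hP'ae]
    exact h0
  obtain ⟨K, hKP, hK, hK0⟩ := hP'm.exists_lt_isCompact (pos_iff_ne_zero.2 h1)
  refine ⟨K, hKP.trans hP'P, hK, ?_⟩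
  have h2 := Besicovitch.ae_tendsto_measure_inter_div (volume : Measure ℝ) K
  rw [ae_restrict_iff' hK.measurableSet] at h2
  by_contra hno
  push Not at hno
  apply hK0.ne'
  rw [measure_eq_zero_iff_ae_notMem]
  filter_upwards [h2] with x hx hxK
  exact hno x hxK (den_of_lim hK.measurableSet (hx hxK))

end Pool.Agent.AEP
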