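import Pool.Agent.AEP.Defs
import Pool.Agent.TNM.Hul

/-!
# Pairs of points of a hull

Let `H = Hu κ i`. For a point `y` with `κ y = i` the measurable set `{x ∈ H | x - y ∈ D}`
contains no point of the colour `i`, so it is null by `Pool.Agent.TNM.hull_meets`. The set of
all `y ∈ H` for which this set is not null is measurable and contains no point of colour `i`, so
it is null by `hull_meets` again, and Fubini concludes.
-/

open Set MeasureTheory Filter Topology Metric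
open Pool.Agent.Helper2.LM Pool.Agent.TNM

namespace Pool.Agent.AEP

theorem pairs_null {κ : ℝ × ℝ → Fin 4} {D : Set (ℝ × ℝ)} (mD : MeasurableSet D)
    (h : ∀ x y, κ x = κ y → x - y ∉ D) (i : Fin 4) :
    volume {q : (ℝ × ℝ) × (ℝ × ℝ) | q.1 ∈ Hu κ i ∧ q.2 ∈ Hu κ i ∧ q.1 - q.2 ∈ D} = 0 := by
  have mH := measurable_Hu κ i
  set Z : Set ((ℝ × ℝ) × (ℝ × ℝ)) :=
    {q | q.1 ∈ Hu κ i ∧ q.2 ∈ Hu κ i ∧ q.1 - q.2 ∈ D} with hZ
  have mZ : MeasurableSet Z :=
    (measurable_fst mH).inter ((measurable_snd mH).inter ((measurable_fst.sub measurable_snd) mD))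
  have mF : Measurable fun y : ℝ × ℝ => volume ((fun x : ℝ × ℝ => (x, y)) ⁻¹' Z) :=
    measurable_measure_prodMk_right mZ
  have hF : ∀ y, κ y = i → volume ((fun x : ℝ × ℝ => (x, y)) ⁻¹' Z) = 0 := by
    intro y hy
    by_contra h0
    obtain ⟨x, hx, hxi⟩ := hull_meets (κ := κ) (i := i)
      ((measurable_id.prodMk measurable_const) mZ : MeasurableSet
        ((fun x : ℝ × ℝ => (x, y)) ⁻¹' Z)) (fun x hx => hx.1) h0
    exact h x y (hxi.trans hy.symm) hx.2.2
  have hW : volume (Hu κ i ∩ {y | volume ((fun x : ℝ × ℝ => (x, y)) ⁻¹' Z) ≠ 0}) = 0 := by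
    by_contra h0
    obtain ⟨y, hy, hyi⟩ := hull_meets (κ := κ) (i := i)
      (mH.inter (mF (measurableSet_singleton 0).compl)) (fun y hy => hy.1) h0
    exact hy.2 (hF y hyi)
  rw [Measure.volume_eq_prod, Measure.prod_apply_symm mZ, lintegral_eq_zero_iff mF]
  have hW' : ∀ᵐ y : ℝ × ℝ, y ∉ Hu κ i ∩ {y | volume ((fun x : ℝ × ℝ => (x, y)) ⁻¹' Z) ≠ 0} :=
    measure_eq_zero_iff_ae_notMem.1 hW
  filter_upwards [hW'] with y hy
  by_contra h0
  apply hy
  refine ⟨?_, h0⟩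
  have hne : ((fun x : ℝ × ℝ => (x, y)) ⁻¹' Z).Nonempty := by
    by_contra hem
    rw [not_nonempty_iff_eq_empty] at hem
    apply h0
    show volume ((fun x : ℝ × ℝ => (x, y)) ⁻¹' Z) = 0
    rw [hem, measure_empty]
  obtain ⟨x, hx⟩ := hne
  exact hx.2.1

end Pool.Agent.AEP
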