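import Pool.Agent.H99M.Main
import Pool.Agent.TNM.Hul
import Pool.Agent.AEP.Lb
import Pool.Agent.AEP.Du
import Pool.Agent.AEP.Pr
import Pool.Agent.AEP.Cn
import Pool.Agent.AEP.Clo
import Pool.Agent.AEP.Av
import Pool.Agent.AEP.Cpt

/-!
# Almost every exponent: assembly
-/

open Set MeasureTheory Filter Topology Metric
open Pool.Agent.Helper2.LM Pool.Agent.H99M Pool.Agent.TNM

namespace Pool.Agent.AEP

theorem no_avoid_Cp {p : ℝ} (hp : 1 < p) {A : Fin 4 → Set (ℝ × ℝ)} (h : Avoid (Cp p) A) :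
    False := by
  obtain ⟨N, hN, hNp⟩ := exists_lp hp
  obtain ⟨γ, T, hG⟩ := hN.geo
  have e : {v : ℝ × ℝ | N v = 1} = Cp p := by
    ext v
    have hp0 : 0 < p := by linarith
    have hnn : 0 ≤ |v.1| ^ p + |v.2| ^ p := by positivity
    simp only [Cp, mem_ofPred_eq]
    rw [hNp]
    constructor
    · intro h1
      have h2 := congrArg (fun z : ℝ => z ^ p) h1
      simp only [Real.one_rpow] at h2
      rwa [← Real.rpow_mul hnn, one_div, inv_mul_cancel₀ hp0.ne', Real.rpow_one] at h2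
    · intro h1
      rw [h1, Real.one_rpow]
  rw [e] at hG
  exact no_avoid hG h

theorem main {P : Set ℝ} (hP : NullMeasurableSet P) (h1 : P ⊆ Ioi 1) (h0 : volume P ≠ 0)
    (κ : ℝ × ℝ → Fin 4) :
    ∃ p ∈ P, ∃ x y : ℝ × ℝ, κ x = κ y ∧ |x.1 - y.1| ^ p + |x.2 - y.2| ^ p = 1 := by
  by_contra hcon
  push Not at hcon
  obtain ⟨K, hKP, hK, p, hpK, hd⟩ := exists_den hP h0
  have hK1 : K ⊆ Ioi 1 := hKP.trans h1
  have hp : 1 < p := hK1 hpK
  have hcl := isClosed_DK hK hK1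
  have hkey : ∀ x y, κ x = κ y → x - y ∉ DK K := by
    rintro x y hxy ⟨q, hq, hq1⟩
    exact hcon q (hKP hq) x y hxy hq1
  have h2 : ∀ i, ∀ v ∈ Cp p, NoPair (Hu κ i) v := by
    intro i v hv
    refine noPair_closure (measurable_Hu κ i) (S := {u : ℝ × ℝ | u ∈ Cp p ∧ u.1 ≠ 0 ∧ u.2 ≠ 0})
      ?_ (mem_closure_Cp hp hv)
    rintro u ⟨hu, hu1, hu2⟩
    exact noPair_of (measurable_Hu κ i) hcl.measurableSet (pairs_null hcl.measurableSet hkey i)
      (den2_DK hK hK1 hp hd hu hu1 hu2)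
  obtain ⟨A, hA⟩ := avoid_of_hulls h2
  exact no_avoid_Cp hp hA

end Pool.Agent.AEP
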