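import Pool.Agent.AEP.Defs

/-!
# Exponents of the points of a vertical segment

Let `a, b > 0`, `a ^ p + b ^ p = 1`. Plan. Both `a, b < 1`.
(a) `Φ (x, y, q) = x ^ q + y ^ q` and `ψ (x, q) = (1 - x ^ q) ^ (1 / q)` are `C¹` near `(a, b, p)`
and `(a, p)` (`ContDiffAt.rpow`, the bases are positive there), so they are Lipschitz on
neighbourhoods (`ContDiffAt.exists_lipschitzOnWith`), with constants `L` and `L'`.
(b) `q ↦ a ^ q + b ^ q` has the derivative `-m` at `p` with `m = -(a ^ p log a + b ^ p log b) > 0`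
(`HasStrictDerivAt`/`Real.hasStrictDerivAt_const_rpow`, `Real.log_neg`), so for small `τ > 0`
`a ^ (p + τ) + b ^ (p + τ) ≤ 1 - (m / 2) τ` and `a ^ (p - τ) + b ^ (p - τ) ≥ 1 + (m / 2) τ`.
(c) With `C₀ = 4 (L + 1) / m`, `|x - a| ≤ r`, `|y - b| ≤ r`, `r` small:
`Φ (x, y, p + C₀ r) ≤ 1 ≤ Φ (x, y, p - C₀ r)`, so by the intermediate value theorem there is
`q ∈ Icc (p - C₀ r) (p + C₀ r)` with `x ^ q + y ^ q = 1`, and then `y = ψ (x, q)` (`y > 0`,
`q > 0`: `y ^ q = 1 - x ^ q`, take the power `1 / q`).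
(d) So the set on the left hand side is contained in the image of `Icc (p - C₀ r) (p + C₀ r) \ K`
under `q ↦ ψ (x, q)`, which is `L'`-Lipschitz there: its measure is at most
`L' * volume (Icc (p - C₀ r) (p + C₀ r) \ K)` (`LipschitzOnWith.hausdorffMeasure_image_le` with
`d = 1` and `MeasureTheory.hausdorffMeasure_real : μH[1] = volume`). Take `C = max (C₀, L' + 1)`.
-/

open Set MeasureTheory Filter Topology Metric
open Pool.Agent.Helper2.LM

namespace Pool.Agent.AEP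

theorem slice {p a b : ℝ} (hp : 1 < p) (ha : 0 < a) (hb : 0 < b) (hab : a ^ p + b ^ p = 1) :
    ∃ C : ℝ, 0 < C ∧ ∃ r₀ : ℝ, 0 < r₀ ∧ ∀ (K : Set ℝ) (r x : ℝ), 0 < r → r < r₀ → |x - a| ≤ r →
      volume {y : ℝ | |y - b| ≤ r ∧ ¬ ∃ q ∈ K, x ^ q + y ^ q = 1} ≤
        ENNReal.ofReal C * volume (Icc (p - C * r) (p + C * r) \ K) := by
  have hap : 0 < a ^ p := Real.rpow_pos_of_pos ha p
  have hbp : 0 < b ^ p := Real.rpow_pos_of_pos hb p
  have ha1 : a < 1 := by
    by_contra h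
    have := Real.one_le_rpow (not_lt.1 h) (by linarith : (0 : ℝ) ≤ p)
    linarith
  have hb1 : b < 1 := by
    by_contra h
    have := Real.one_le_rpow (not_lt.1 h) (by linarith : (0 : ℝ) ≤ p)
    linarith
  obtain ⟨m, hm⟩ : ∃ m : ℝ, m = -(a ^ p * Real.log a + b ^ p * Real.log b) := ⟨_, rfl⟩
  have hm0 : 0 < m := by
    have h1 := mul_pos hap (neg_pos.2 (Real.log_neg ha ha1))
    have h2 := mul_pos hbp (neg_pos.2 (Real.log_neg hb hb1))
    rw [hm]
    linarith
  -- Lipschitz bound of the sum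
  have hΦ : ContDiffAt ℝ 1 (fun z : ℝ × ℝ × ℝ => z.1 ^ z.2.2 + z.2.1 ^ z.2.2) (a, b, p) := by
    refine ContDiffAt.add ?_ ?_
    · exact ContDiffAt.rpow contDiffAt_fst (contDiffAt_snd.comp _ contDiffAt_snd) ha.ne'
    · exact ContDiffAt.rpow (contDiffAt_fst.comp _ contDiffAt_snd)
        (contDiffAt_snd.comp _ contDiffAt_snd) hb.ne'
  obtain ⟨L, t, ht, hL⟩ := hΦ.exists_lipschitzOnWith
  obtain ⟨δ1, hδ1, ht1⟩ := Metric.mem_nhds_iff.1 ht
  -- Lipschitz bound of the implicit function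
  have hψ : ContDiffAt ℝ 1 (fun z : ℝ × ℝ => (1 - z.1 ^ z.2) ^ (1 / z.2)) (a, p) := by
    refine ContDiffAt.rpow ?_ ?_ ?_
    · exact contDiffAt_const.sub (ContDiffAt.rpow contDiffAt_fst contDiffAt_snd ha.ne')
    · exact contDiffAt_const.div contDiffAt_snd (by show p ≠ 0; linarith)
    · show 1 - a ^ p ≠ 0
      linarith
  obtain ⟨L', t', ht', hL'⟩ := hψ.exists_lipschitzOnWith
  obtain ⟨δ2, hδ2, ht2⟩ := Metric.mem_nhds_iff.1 ht'
  -- the derivative in the exponent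
  have hg : HasDerivAt (fun q : ℝ => a ^ q + b ^ q) (-m) p := by
    have h := (Real.hasStrictDerivAt_const_rpow ha p).hasDerivAt.add
      (Real.hasStrictDerivAt_const_rpow hb p).hasDerivAt
    rw [hm, neg_neg]
    exact h
  have hg1 := hg.isLittleO.def (half_pos hm0)
  obtain ⟨δ3, hδ3, hg2⟩ := Metric.eventually_nhds_iff.1 hg1
  obtain ⟨C₀, hC₀⟩ : ∃ C₀ : ℝ, C₀ = 2 * (L + 1) / m := ⟨_, rfl⟩
  have hL0 : (0 : ℝ) ≤ L := L.2
  have hC0 : 0 < C₀ := by
    rw [hC₀]
    positivity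
  have hC1 : m / 2 * C₀ = L + 1 := by
    rw [hC₀]
    field_simp
  obtain ⟨δ, hδ⟩ : ∃ δ : ℝ, δ = min (min δ1 δ2) (min δ3 (min 1 (min a b))) := ⟨_, rfl⟩
  have hδ0 : 0 < δ := by
    rw [hδ]
    exact lt_min (lt_min hδ1 hδ2) (lt_min hδ3 (lt_min one_pos (lt_min ha hb)))
  have e1 : δ ≤ δ1 := hδ ▸ (min_le_left _ _).trans (min_le_left _ _)
  have e2 : δ ≤ δ2 := hδ ▸ (min_le_left _ _).trans (min_le_right _ _)
  have e3 : δ ≤ δ3 := hδ ▸ (min_le_right _ _).trans (min_le_left _ _)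
  have e4 : δ ≤ 1 := hδ ▸ (min_le_right _ _).trans ((min_le_right _ _).trans (min_le_left _ _))
  have e5 : δ ≤ a := hδ ▸ (min_le_right _ _).trans ((min_le_right _ _).trans
    ((min_le_right _ _).trans (min_le_left _ _)))
  have e6 : δ ≤ b := hδ ▸ (min_le_right _ _).trans ((min_le_right _ _).trans
    ((min_le_right _ _).trans (min_le_right _ _)))
  have hC2 : (0 : ℝ) < max C₀ (L' + 1) := lt_of_lt_of_le hC0 (le_max_left _ _)
  refine ⟨max C₀ (L' + 1), hC2, δ / (C₀ + 1), by positivity, ?_⟩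
  intro K r x hr hr0 hx
  have hr1 : r * (C₀ + 1) < δ := (lt_div_iff₀ (by positivity)).1 hr0
  have hrδ : r < δ := by nlinarith
  have hCr : C₀ * r < δ := by nlinarith
  have hCr0 : 0 < C₀ * r := mul_pos hC0 hr
  have hx' := abs_le.1 hx
  have hx0 : 0 < x := by linarith
  have hdist : ∀ y q : ℝ, |y - b| ≤ r → q ∈ Icc (p - C₀ * r) (p + C₀ * r) →
      |(x ^ q + y ^ q) - (a ^ q + b ^ q)| ≤ L * r := by
    intro y q hy hq
    have hq' : |q - p| < δ := by
      rw [abs_lt]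
      constructor <;> linarith [hq.1, hq.2]
    have m1 : ((x, y, q) : ℝ × ℝ × ℝ) ∈ t := by
      apply ht1
      rw [Metric.mem_ball, Prod.dist_eq, Prod.dist_eq, Real.dist_eq, Real.dist_eq, Real.dist_eq]
      refine max_lt ?_ (max_lt ?_ ?_)
      · exact lt_of_le_of_lt hx (by linarith)
      · exact lt_of_le_of_lt hy (by linarith)
      · exact lt_of_lt_of_le hq' e1
    have m2 : ((a, b, q) : ℝ × ℝ × ℝ) ∈ t := by
      apply ht1
      rw [Metric.mem_ball, Prod.dist_eq, Prod.dist_eq, Real.dist_eq, Real.dist_eq, Real.dist_eq]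
      refine max_lt ?_ (max_lt ?_ ?_)
      · show |a - a| < δ1
        rw [sub_self, abs_zero]
        exact hδ1
      · show |b - b| < δ1
        rw [sub_self, abs_zero]
        exact hδ1
      · exact lt_of_lt_of_le hq' e1
    have h := hL.dist_le_mul _ m1 _ m2
    rw [Real.dist_eq] at h
    refine h.trans (mul_le_mul_of_nonneg_left ?_ hL0)
    rw [Prod.dist_eq, Prod.dist_eq, Real.dist_eq, Real.dist_eq, Real.dist_eq]
    refine max_le hx (max_le hy ?_)
    show |q - q| ≤ r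
    rw [sub_self, abs_zero]
    exact hr.le
  have hgp : ∀ q : ℝ, |q - p| < δ → |(a ^ q + b ^ q) - 1 + (q - p) * m| ≤ m / 2 * |q - p| := by
    intro q hq
    have h := hg2 (y := q) (by rw [Real.dist_eq]; exact lt_of_lt_of_le hq e3)
    rw [Real.norm_eq_abs, Real.norm_eq_abs, hab, smul_eq_mul] at h
    have h2 : a ^ q + b ^ q - 1 - (q - p) * -m = (a ^ q + b ^ q) - 1 + (q - p) * m := by ring
    rwa [h2] at h
  have hsub : {y : ℝ | |y - b| ≤ r ∧ ¬ ∃ q ∈ K, x ^ q + y ^ q = 1} ⊆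
      (fun q : ℝ => (1 - x ^ q) ^ (1 / q)) '' (Icc (p - C₀ * r) (p + C₀ * r) \ K) := by
    rintro y ⟨hy, hyK⟩
    have hy' := abs_le.1 hy
    have hy0 : 0 < y := by linarith
    have hcont : ContinuousOn (fun q : ℝ => x ^ q + y ^ q) (Icc (p - C₀ * r) (p + C₀ * r)) := by
      refine Continuous.continuousOn ?_
      exact (Real.continuous_const_rpow hx0.ne').add (Real.continuous_const_rpow hy0.ne')
    have hle : p - C₀ * r ≤ p + C₀ * r := by linarith
    have k1 : x ^ (p + C₀ * r) + y ^ (p + C₀ * r) ≤ 1 := by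
      have h1 := hdist y (p + C₀ * r) hy ⟨hle, le_rfl⟩
      have h2 := hgp (p + C₀ * r) (by rw [add_sub_cancel_left, abs_of_pos hCr0]; exact hCr)
      rw [add_sub_cancel_left, abs_of_pos hCr0] at h2
      have h3 := (abs_le.1 h1).2
      have h4 := (abs_le.1 h2).2
      have h5 : m / 2 * (C₀ * r) = (L + 1) * r := by rw [← mul_assoc, hC1]
      nlinarith
    have k2 : 1 ≤ x ^ (p - C₀ * r) + y ^ (p - C₀ * r) := by
      have h1 := hdist y (p - C₀ * r) hy ⟨le_rfl, hle⟩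
      have e7 : p - C₀ * r - p = -(C₀ * r) := by ring
      have h2 := hgp (p - C₀ * r) (by rw [e7, abs_neg, abs_of_pos hCr0]; exact hCr)
      rw [e7, abs_neg, abs_of_pos hCr0] at h2
      have h3 := (abs_le.1 h1).1
      have h4 := (abs_le.1 h2).1
      have h5 : m / 2 * (C₀ * r) = (L + 1) * r := by rw [← mul_assoc, hC1]
      nlinarith
    obtain ⟨q, hq, hq1⟩ := intermediate_value_Icc' hle hcont ⟨k1, k2⟩
    have hq1' : x ^ q + y ^ q = 1 := hq1
    refine ⟨q, ⟨hq, fun hqK => hyK ⟨q, hqK, hq1'⟩⟩, ?_⟩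
    have hq0 : 0 < q := by linarith [hq.1]
    show (1 - x ^ q) ^ (1 / q) = y
    have h6 : 1 - x ^ q = y ^ q := by linarith
    rw [h6, ← Real.rpow_mul hy0.le, mul_one_div_cancel hq0.ne', Real.rpow_one]
  have hlip : LipschitzOnWith L' (fun q : ℝ => (1 - x ^ q) ^ (1 / q))
      (Icc (p - C₀ * r) (p + C₀ * r) \ K) := by
    refine LipschitzOnWith.of_dist_le_mul ?_
    intro q hq q' hq'
    have hmem : ∀ z : ℝ, z ∈ Icc (p - C₀ * r) (p + C₀ * r) → ((x, z) : ℝ × ℝ) ∈ t' := by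
      intro z hz
      apply ht2
      rw [Metric.mem_ball, Prod.dist_eq, Real.dist_eq, Real.dist_eq]
      refine max_lt (lt_of_le_of_lt hx (by linarith)) ?_
      show |z - p| < δ2
      rw [abs_lt]
      constructor <;> linarith [hz.1, hz.2]
    have h := hL'.dist_le_mul _ (hmem q hq.1) _ (hmem q' hq'.1)
    refine h.trans (mul_le_mul_of_nonneg_left ?_ L'.2)
    rw [Prod.dist_eq]
    refine max_le ?_ le_rfl
    show dist x x ≤ dist q q'
    rw [dist_self]
    exact dist_nonneg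
  have hmeas := hlip.hausdorffMeasure_image_le (d := 1) zero_le_one
  rw [hausdorffMeasure_real, ENNReal.rpow_one] at hmeas
  refine (measure_mono hsub).trans (hmeas.trans (mul_le_mul' ?_ (measure_mono ?_)))
  · have h1 : (L' : ENNReal) = ENNReal.ofReal (L' : ℝ) := (ENNReal.ofReal_coe_nnreal).symm
    rw [h1]
    refine ENNReal.ofReal_le_ofReal ?_
    have := le_max_right C₀ ((L' : ℝ) + 1)
    linarith
  · refine diff_subset_diff_left (Icc_subset_Icc ?_ ?_)
    · have := mul_le_mul_of_nonneg_right (le_max_left C₀ ((L' : ℝ) + 1)) hr.le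
      linarith
    · have := mul_le_mul_of_nonneg_right (le_max_left C₀ ((L' : ℝ) + 1)) hr.le
      linarith

end Pool.Agent.AEP
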